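import Mathlib

open MeasureTheory Filter
open scoped ENNReal NNReal Topology

namespace Pool.Agent.Results.MP_46e535_pr.Main

/-! ## Branching random walks: the definitions of the problem -/

/-- The discrete sigma-algebra on the set `X →₀ ℕ` of finite particle configurations. -/
@[reducible]
def confMeasurableSpace (X : Type) : MeasurableSpace (X →₀ ℕ) := ⊤

attribute [local instance] confMeasurableSpace

/-- `meanMatrix μ x y` is the mean number `m_{xy}` of children at `y` of a particle at `x`. -/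
noncomputable def meanMatrix {X : Type} (μ : X → PMF (X →₀ ℕ)) (x y : X) : ℝ≥0∞ :=
  ∑' f : X →₀ ℕ, (f y : ℝ≥0∞) * μ x f

/-- Irreducibility of the BRW: every site can be reached from every site through positive
entries of the mean matrix. -/
def IsIrreducible {X : Type} (μ : X → PMF (X →₀ ℕ)) : Prop :=
  ∀ x y : X, Relation.ReflTransGen (fun a b => 0 < meanMatrix μ a b) x y

/-- The probability space of the BRW: for every time `n`, site `y` and index `i` an independent
offspring configuration `ω (n, y, i)` with law `μ y`. -/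
noncomputable def brwMeasure {X : Type} (μ : X → PMF (X →₀ ℕ)) :
    Measure (ℕ × X × ℕ → (X →₀ ℕ)) :=
  Measure.infinitePi fun idx => (μ idx.2.1).toMeasure

/-- The particle configuration `η_n` at time `n`, started from one particle at `x`: the `i`-th
particle at `y` at time `n` is replaced by the configuration `ω (n, y, i)`. -/
noncomputable def popConf {X : Type} (x : X) (ω : ℕ × X × ℕ → (X →₀ ℕ)) : ℕ → (X →₀ ℕ)
  | 0 => Finsupp.single x 1
  | n + 1 => (popConf x ω n).sum fun y c => ∑ i ∈ Finset.range c, ω (n, y, i)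

/-- The extinction probability vector `q(x, A) = 1 - P^x (limsup_n ∑_{y ∈ A} η_n(y) > 0)`. -/
noncomputable def extinctionVec {X : Type} (μ : X → PMF (X →₀ ℕ)) (A : Set X) (x : X) : ℝ :=
  1 - (brwMeasure μ).real
    {ω | 0 < limsup (fun n => ∑' y : A, (popConf x ω n y : ℝ≥0∞)) atTop}

/-- The generating function `G(z | x) = ∑_f μ_x(f) ∏_y z(y)^{f(y)}`. -/
noncomputable def genFun {X : Type} (μ : X → PMF (X →₀ ℕ)) (z : X → ℝ) (x : X) : ℝ :=
  ∑' f : X →₀ ℕ, (μ x f).toReal * ∏ y ∈ f.support, z y ^ f y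

/-- The set `F_G` of fixed points of `G` in `[0,1]^X`. -/
def fixedPoints {X : Type} (μ : X → PMF (X →₀ ℕ)) : Set (X → ℝ) :=
  {z | (∀ x, 0 ≤ z x ∧ z x ≤ 1) ∧ ∀ x, genFun μ z x = z x}

/-- The set `E_G` of extinction probability vectors. -/
def extinctionVecs {X : Type} (μ : X → PMF (X →₀ ℕ)) : Set (X → ℝ) :=
  {z | ∃ A : Set X, z = extinctionVec μ A}

/-! ## The example -/

/-- The probabilities `ε_n = 8^{-(n+1)}`. -/
noncomputable def eps (n : ℕ) : ℝ≥0 := (1 / 8 : ℝ≥0) ^ (n + 1)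

lemma eps_le_one (n : ℕ) : eps n ≤ 1 := by
  unfold eps
  exact pow_le_one₀ (by positivity) (by
    rw [div_le_one (by norm_num)]; norm_num)

/-- a positive weight on `ℕ × ℕ`. -/
noncomputable def wt (y : ℕ × ℕ) : ℝ≥0∞ := 2⁻¹ ^ y.1 * 2⁻¹ ^ y.2

lemma tsum_wt : ∑' y, wt y = 4 := by
  unfold wt
  rw [ENNReal.tsum_prod (f := fun a b => (2⁻¹ : ℝ≥0∞) ^ a * 2⁻¹ ^ b)]
  simp_rw [ENNReal.tsum_mul_left, ENNReal.tsum_geometric, ENNReal.tsum_mul_right,
    ENNReal.tsum_geometric]
  rw [ENNReal.one_sub_inv_two, inv_inv]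
  norm_num

/-- A law on `ℕ × ℕ` charging every point. -/
noncomputable def nu : PMF (ℕ × ℕ) :=
  PMF.normalize wt (by rw [tsum_wt]; norm_num) (by rw [tsum_wt]; norm_num)

lemma nu_pos (y : ℕ × ℕ) : 0 < nu y := by
  unfold nu
  rw [PMF.normalize_apply, tsum_wt]
  unfold wt
  refine ENNReal.mul_pos (mul_ne_zero ?_ ?_) ?_
  · exact pow_ne_zero _ (by simp)
  · exact pow_ne_zero _ (by simp)
  · simp

/-- A coin showing `true` with probability `p`. -/
noncomputable def coin (p : ℝ≥0) (hp : p ≤ 1) : PMF Bool :=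
  PMF.ofFintype (fun b => if b then (p : ℝ≥0∞) else 1 - p) (by
    simp only [Fintype.univ_bool, Finset.mem_singleton, Bool.true_eq_false, not_false_eq_true,
      Finset.sum_insert, if_true, Finset.sum_singleton, Bool.false_eq_true, if_false]
    exact add_tsub_cancel_of_le (by exact_mod_cast hp))

lemma coin_true (p : ℝ≥0) (hp : p ≤ 1) : coin p hp true = p := by
  simp [coin, PMF.ofFintype_apply]

lemma coin_false (p : ℝ≥0) (hp : p ≤ 1) : coin p hp false = 1 - p := by
  simp [coin, PMF.ofFintype_apply]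

/-- The offspring laws of the example: a particle at `(j, n)` is replaced with probability
`1 - ε_n` by two particles at `(j, n + 1)`, and with probability `ε_n` by one particle at a
random site with law `nu`. -/
noncomputable def exMu (x : ℕ × ℕ) : PMF ((ℕ × ℕ) →₀ ℕ) :=
  (coin (eps x.2) (eps_le_one x.2)).bind fun b =>
    if b then nu.bind fun y => PMF.pure (Finsupp.single y 1)
    else PMF.pure (Finsupp.single (x.1, x.2 + 1) 2)

lemma tsum_bind {α β : Type} (p : PMF α) (f : α → PMF β) (Φ : β → ℝ≥0∞) :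
    ∑' b, (p.bind f) b * Φ b = ∑' a, p a * ∑' b, f a b * Φ b := by
  simp_rw [PMF.bind_apply, ← ENNReal.tsum_mul_right, ← ENNReal.tsum_mul_left]
  rw [ENNReal.tsum_comm]
  refine tsum_congr fun a => tsum_congr fun b => ?_
  ring

lemma tsum_pure {β : Type} (b₀ : β) (Φ : β → ℝ≥0∞) :
    ∑' b, (PMF.pure b₀) b * Φ b = Φ b₀ := by
  rw [tsum_eq_single b₀]
  · simp [PMF.pure_apply]
  · intro b hb
    simp [PMF.pure_apply, hb]

lemma tsum_exMu (x : ℕ × ℕ) (Φ : ((ℕ × ℕ) →₀ ℕ) → ℝ≥0∞) :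
    ∑' f, exMu x f * Φ f =
      (eps x.2 : ℝ≥0∞) * ∑' y, nu y * Φ (Finsupp.single y 1) +
        (1 - (eps x.2 : ℝ≥0∞)) * Φ (Finsupp.single (x.1, x.2 + 1) 2) := by
  unfold exMu
  rw [tsum_bind, tsum_bool, coin_true, coin_false]
  simp only [if_true, Bool.false_eq_true, if_false]
  rw [tsum_pure, tsum_bind, add_comm]
  simp_rw [tsum_pure]

/-- Closed form of the generating function of the example on `[0,1]^X`. -/
lemma genFun_exMu (z : ℕ × ℕ → ℝ) (hz : ∀ x, 0 ≤ z x ∧ z x ≤ 1) (x : ℕ × ℕ) :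
    genFun exMu z x = (eps x.2 : ℝ) * ∑' y, (nu y).toReal * z y +
      (1 - (eps x.2 : ℝ)) * z (x.1, x.2 + 1) ^ 2 := by
  unfold genFun
  have h1 : ∀ f : (ℕ × ℕ) →₀ ℕ, (exMu x f).toReal * ∏ y ∈ f.support, z y ^ f y =
      (exMu x f * ENNReal.ofReal (∏ y ∈ f.support, z y ^ f y)).toReal := by
    intro f
    rw [ENNReal.toReal_mul, ENNReal.toReal_ofReal
      (Finset.prod_nonneg fun y _ => pow_nonneg (hz y).1 _)]
  simp_rw [h1]
  rw [← ENNReal.tsum_toReal_eq fun f =>
    ENNReal.mul_ne_top (PMF.apply_ne_top _ _) ENNReal.ofReal_ne_top, tsum_exMu]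
  have h2 : ∀ (a : ℕ × ℕ) (m : ℕ), m ≠ 0 →
      (∏ y ∈ (Finsupp.single a m).support, z y ^ (Finsupp.single a m) y) = z a ^ m := by
    intro a m hm
    rw [Finsupp.support_single _ hm, Finset.prod_singleton, Finsupp.single_eq_same]
  simp_rw [h2 _ 1 one_ne_zero, h2 _ 2 two_ne_zero, pow_one]
  have h3 : ∑' y, nu y * ENNReal.ofReal (z y) ≤ 1 := by
    calc ∑' y, nu y * ENNReal.ofReal (z y) ≤ ∑' y, nu y := by
          refine ENNReal.tsum_le_tsum fun y => ?_
          calc nu y * ENNReal.ofReal (z y) ≤ nu y * 1 := by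
                gcongr
                rw [← ENNReal.ofReal_one]
                exact ENNReal.ofReal_le_ofReal (hz y).2
            _ = nu y := mul_one _
      _ = 1 := nu.tsum_coe
  have h3' : ∑' y, nu y * ENNReal.ofReal (z y) ≠ ⊤ := ne_top_of_le_ne_top ENNReal.one_ne_top h3
  rw [ENNReal.toReal_add (ENNReal.mul_ne_top ENNReal.coe_ne_top h3')
    (ENNReal.mul_ne_top (by finiteness) ENNReal.ofReal_ne_top)]
  rw [ENNReal.toReal_mul, ENNReal.toReal_mul, ENNReal.coe_toReal, ENNReal.tsum_toReal_eq fun y =>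
    ENNReal.mul_ne_top (PMF.apply_ne_top _ _) ENNReal.ofReal_ne_top]
  congr 1
  · congr 1
    refine tsum_congr fun y => ?_
    rw [ENNReal.toReal_mul, ENNReal.toReal_ofReal (hz y).1]
  · rw [ENNReal.toReal_ofReal (pow_nonneg (hz _).1 _)]
    congr 1
    rw [ENNReal.toReal_sub_of_le (by exact_mod_cast eps_le_one x.2) ENNReal.one_ne_top]
    simp

lemma meanMatrix_pos (x y : ℕ × ℕ) : 0 < meanMatrix exMu x y := by
  unfold meanMatrix
  simp_rw [mul_comm _ (exMu x _)]
  rw [tsum_exMu]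
  refine lt_of_lt_of_le ?_ le_self_add
  refine ENNReal.mul_pos ?_ ?_
  · have : (0 : ℝ≥0) < eps x.2 := by unfold eps; positivity
    exact_mod_cast this.ne'
  · refine (lt_of_lt_of_le ?_ (ENNReal.le_tsum y)).ne'
    simpa using nu_pos y

lemma irreducible_exMu : IsIrreducible exMu := fun x y =>
  Relation.ReflTransGen.single (meanMatrix_pos x y)

/-! ### The extinction probability vectors of the example -/

/-- The exceptional event for a start at `(j, n)`. -/
def bad (j n : ℕ) : Set (ℕ × (ℕ × ℕ) × ℕ → ((ℕ × ℕ) →₀ ℕ)) :=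
  ⋃ T : ℕ, ⋃ i ∈ Finset.range (2 ^ T), {ω | ω (T, (j, n + T), i) ≠ Finsupp.single (j, n + T + 1) 2}

lemma measurableSet_ne (idx : ℕ × (ℕ × ℕ) × ℕ) (s : (ℕ × ℕ) →₀ ℕ) :
    MeasurableSet {ω : ℕ × (ℕ × ℕ) × ℕ → ((ℕ × ℕ) →₀ ℕ) | ω idx ≠ s} := by
  have : Measurable fun ω : ℕ × (ℕ × ℕ) × ℕ → ((ℕ × ℕ) →₀ ℕ) => ω idx := measurable_pi_apply idx
  exact this (MeasurableSpace.measurableSet_top (s := {f | f ≠ s}))

lemma measurableSet_bad (j n : ℕ) : MeasurableSet (bad j n) := by
  unfold bad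
  exact MeasurableSet.iUnion fun T => Finset.measurableSet_biUnion _ fun i _ =>
    measurableSet_ne _ _

lemma meas_ne_le (n : ℕ) (x : ℕ × ℕ) (i : ℕ) :
    brwMeasure exMu {ω | ω (n, x, i) ≠ Finsupp.single (x.1, x.2 + 1) 2} ≤ eps x.2 := by
  unfold brwMeasure
  have h := (measurePreserving_eval_infinitePi
    (fun idx : ℕ × (ℕ × ℕ) × ℕ => (exMu idx.2.1).toMeasure) (n, x, i)).measure_preimage
    (MeasurableSpace.measurableSet_top
      (s := {f : (ℕ × ℕ) →₀ ℕ | f ≠ Finsupp.single (x.1, x.2 + 1) 2})).nullMeasurableSet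
  refine h.le.trans ?_
  rw [PMF.toMeasure_apply _ MeasurableSpace.measurableSet_top]
  have h1 : ∀ f : (ℕ × ℕ) →₀ ℕ,
      Set.indicator {f : (ℕ × ℕ) →₀ ℕ | f ≠ Finsupp.single (x.1, x.2 + 1) 2} (exMu x) f =
        exMu x f * (if f = Finsupp.single (x.1, x.2 + 1) 2 then 0 else 1) := by
    intro f
    by_cases hf : f = Finsupp.single (x.1, x.2 + 1) 2
    · simp [hf]
    · simp [hf]
  simp_rw [h1]
  rw [tsum_exMu]
  simp only [if_true, mul_zero, add_zero]
  calc (eps x.2 : ℝ≥0∞) * ∑' y, nu y *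
        (if Finsupp.single y 1 = Finsupp.single (x.1, x.2 + 1) 2 then 0 else 1)
      ≤ (eps x.2 : ℝ≥0∞) * ∑' y, nu y := by
        gcongr with y
        split_ifs <;> simp
    _ = eps x.2 := by rw [nu.tsum_coe, mul_one]

instance : IsProbabilityMeasure (brwMeasure exMu) := by
  unfold brwMeasure; infer_instance

lemma meas_bad_le (j n : ℕ) : (brwMeasure exMu).real (bad j n) ≤ (1 / 8 : ℝ) ^ n / 6 := by
  have h1 : brwMeasure exMu (bad j n) ≤ ∑' T : ℕ, (2 : ℝ≥0∞) ^ T * eps (n + T) := by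
    unfold bad
    refine (measure_iUnion_le _).trans (ENNReal.tsum_le_tsum fun T => ?_)
    refine (measure_biUnion_finset_le _ _).trans ?_
    refine (Finset.sum_le_sum fun i _ => meas_ne_le T (j, n + T) i).trans ?_
    simp
  have h2 : ∑' T : ℕ, (2 : ℝ≥0∞) ^ T * eps (n + T) = ENNReal.ofReal ((1 / 8 : ℝ) ^ n / 6) := by
    have h3 : ∀ T : ℕ, (2 : ℝ≥0∞) ^ T * eps (n + T) =
        ENNReal.ofReal ((1 / 8 : ℝ) ^ n / 8 * (1 / 4 : ℝ) ^ T) := by
      intro T
      rw [← ENNReal.ofReal_coe_nnreal, show (2 : ℝ≥0∞) = ENNReal.ofReal 2 by simp,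
        ← ENNReal.ofReal_pow (by norm_num), ← ENNReal.ofReal_mul (by positivity)]
      congr 1
      unfold eps
      push_cast
      rw [pow_succ, pow_add, show (1 / 4 : ℝ) = 2 * (1 / 8) by norm_num, mul_pow]
      ring
    simp_rw [h3]
    rw [← ENNReal.ofReal_tsum_of_nonneg (fun T => by positivity)
      ((summable_geometric_of_lt_one (by norm_num) (by norm_num)).mul_left _), tsum_mul_left,
      tsum_geometric_of_lt_one (by norm_num) (by norm_num)]
    congr 1
    ring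
  rw [Measure.real]
  refine ENNReal.toReal_le_of_le_ofReal (by positivity) ?_
  rw [← h2]; exact h1

lemma popConf_good {j n : ℕ} {ω : ℕ × (ℕ × ℕ) × ℕ → ((ℕ × ℕ) →₀ ℕ)} (h : ω ∉ bad j n) (T : ℕ) :
    popConf (j, n) ω T = Finsupp.single (j, n + T) (2 ^ T) := by
  induction T with
  | zero => simp [popConf]
  | succ T ih =>
    rw [popConf, ih, Finsupp.sum_single_index (by simp)]
    have h1 : ∀ i ∈ Finset.range (2 ^ T),
        ω (T, (j, n + T), i) = Finsupp.single (j, n + T + 1) 2 := by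
      intro i hi
      by_contra hne
      exact h (Set.mem_iUnion.2 ⟨T, Set.mem_iUnion₂.2 ⟨i, hi, hne⟩⟩)
    rw [Finset.sum_congr rfl h1, Finset.sum_const, Finset.card_range, Finsupp.smul_single,
      smul_eq_mul, pow_succ, add_assoc]

lemma tsum_single_mem {A : Set (ℕ × ℕ)} {a : ℕ × ℕ} (ha : a ∈ A) (m : ℕ) :
    ∑' y : A, ((Finsupp.single a m) (y : ℕ × ℕ) : ℝ≥0∞) = m := by
  rw [tsum_eq_single (⟨a, ha⟩ : A)]
  · simp
  · intro b hb
    have : (b : ℕ × ℕ) ≠ a := fun h => hb (Subtype.ext h)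
    simp [Finsupp.single_eq_of_ne this]

lemma tsum_single_not_mem {A : Set (ℕ × ℕ)} {a : ℕ × ℕ} (ha : a ∉ A) (m : ℕ) :
    ∑' y : A, ((Finsupp.single a m) (y : ℕ × ℕ) : ℝ≥0∞) = 0 := by
  rw [ENNReal.tsum_eq_zero]
  intro b
  have : (b : ℕ × ℕ) ≠ a := fun h => ha (h ▸ b.2)
  simp [Finsupp.single_eq_of_ne this]

/-- If `A` contains infinitely many sites of the `j`-th ray, then `q((j,n),A)` is almost `0`. -/
lemma extinctionVec_le {A : Set (ℕ × ℕ)} {j : ℕ} (hA : ∃ᶠ m in atTop, (j, m) ∈ A) (n : ℕ) :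
    extinctionVec exMu A (j, n) ≤ (1 / 8 : ℝ) ^ n / 6 := by
  have h1 : (bad j n)ᶜ ⊆
      {ω | 0 < limsup (fun k => ∑' y : A, (popConf (j, n) ω k y : ℝ≥0∞)) atTop} := by
    intro ω hω
    have h2 : ∃ᶠ k in atTop, (j, n + k) ∈ A := by
      rw [frequently_atTop] at hA ⊢
      intro a
      obtain ⟨b, hb, hb'⟩ := hA (a + n)
      exact ⟨b - n, by omega, by rwa [show n + (b - n) = b by omega]⟩
    have h3 : ∃ᶠ k in atTop, (1 : ℝ≥0∞) ≤ ∑' y : A, (popConf (j, n) ω k y : ℝ≥0∞) := by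
      refine h2.mono fun k hk => ?_
      rw [popConf_good hω k, tsum_single_mem hk]
      exact_mod_cast Nat.one_le_two_pow
    exact lt_of_lt_of_le one_pos (le_limsup_of_frequently_le h3)
  have h2 : (brwMeasure exMu).real (bad j n)ᶜ ≤ (brwMeasure exMu).real
      {ω | 0 < limsup (fun k => ∑' y : A, (popConf (j, n) ω k y : ℝ≥0∞)) atTop} :=
    measureReal_mono h1
  rw [probReal_compl_eq_one_sub (measurableSet_bad j n)] at h2
  have h3 := meas_bad_le j n
  unfold extinctionVec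
  linarith

/-- If `A` contains only finitely many sites of the `j`-th ray, then `q((j,n),A)` is almost
`1`. -/
lemma le_extinctionVec {A : Set (ℕ × ℕ)} {j : ℕ} (hA : ¬ ∃ᶠ m in atTop, (j, m) ∈ A) (n : ℕ) :
    1 - (1 / 8 : ℝ) ^ n / 6 ≤ extinctionVec exMu A (j, n) := by
  have h1 : {ω | 0 < limsup (fun k => ∑' y : A, (popConf (j, n) ω k y : ℝ≥0∞)) atTop} ⊆
      bad j n := by
    intro ω hω
    by_contra hω'
    have h2 : ∀ᶠ k in atTop, (j, n + k) ∉ A := by
      rw [not_frequently, eventually_atTop] at hA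
      obtain ⟨a, ha⟩ := hA
      exact eventually_atTop.2 ⟨a, fun k hk => ha _ (by omega)⟩
    have h3 : (fun k => ∑' y : A, (popConf (j, n) ω k y : ℝ≥0∞)) =ᶠ[atTop] fun _ => 0 := by
      refine h2.mono fun k hk => ?_
      simp only
      rw [popConf_good hω' k, tsum_single_not_mem hk]
    have h4 : limsup (fun k => ∑' y : A, (popConf (j, n) ω k y : ℝ≥0∞)) atTop = 0 := by
      rw [limsup_congr h3, limsup_const]
    rw [Set.mem_ofPred_eq, h4] at hω
    exact lt_irrefl _ hω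
  have h2 := measureReal_mono (μ := brwMeasure exMu) h1
  have h3 := meas_bad_le j n
  unfold extinctionVec
  linarith

/-- The vectors `q(·, J × ℕ)`, `J ⊆ ℕ`, are pairwise different. -/
lemma extinctionVec_injective :
    Function.Injective fun J : Set ℕ => extinctionVec exMu {x : ℕ × ℕ | x.1 ∈ J} := by
  have key : ∀ J J' : Set ℕ, extinctionVec exMu {x : ℕ × ℕ | x.1 ∈ J} =
      extinctionVec exMu {x : ℕ × ℕ | x.1 ∈ J'} → J ⊆ J' := by
    intro J J' h j hj
    by_contra hj'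
    have h1 := extinctionVec_le (A := {x : ℕ × ℕ | x.1 ∈ J}) (j := j)
      (Frequently.of_forall fun m => hj) 0
    have h2 := le_extinctionVec (A := {x : ℕ × ℕ | x.1 ∈ J'}) (j := j)
      (by
        rw [not_frequently]
        exact Eventually.of_forall fun m => hj') 0
    rw [h] at h1
    norm_num at h1 h2
    linarith
  intro J J' h
  exact Set.Subset.antisymm (key _ _ h) (key _ _ h.symm)

lemma not_countable_extinctionVecs : ¬ (extinctionVecs exMu).Countable := by
  intro hc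
  have h1 : (Set.range fun J : Set ℕ => extinctionVec exMu {x : ℕ × ℕ | x.1 ∈ J}).Countable :=
    hc.mono (by rintro _ ⟨J, rfl⟩; exact ⟨_, rfl⟩)
  have h2 : Countable (Set ℕ) := by
    have := h1.to_subtype
    exact Function.Injective.countable (f := fun J : Set ℕ =>
      (⟨_, J, rfl⟩ : Set.range fun J : Set ℕ => extinctionVec exMu {x : ℕ × ℕ | x.1 ∈ J}))
      fun a b h => extinctionVec_injective (congrArg Subtype.val h)
  obtain ⟨f, hf⟩ := exists_injective_nat (Set ℕ)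
  exact Function.cantor_injective f hf

/-! ### Other fixed points of the example -/

/-- The explicit form of the generating function of the example. -/
noncomputable def opT (z : ℕ × ℕ → ℝ) (x : ℕ × ℕ) : ℝ :=
  (eps x.2 : ℝ) * ∑' y, (nu y).toReal * z y + (1 - (eps x.2 : ℝ)) * z (x.1, x.2 + 1) ^ 2

/-- Starting vector: `exp (-t 2^{-n})` on ray `0`, and `1` elsewhere. -/
noncomputable def start (t : ℝ) (x : ℕ × ℕ) : ℝ :=
  if x.1 = 0 then Real.exp (-(t * (1 / 2) ^ x.2)) else 1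

/-- Iterates of the generating function. -/
noncomputable def iter (t : ℝ) : ℕ → ℕ × ℕ → ℝ
  | 0 => start t
  | N + 1 => opT (iter t N)

lemma eps_real (n : ℕ) : (eps n : ℝ) = (1 / 8) ^ (n + 1) := by
  unfold eps; push_cast; ring

lemma eps_real_le_one (n : ℕ) : (eps n : ℝ) ≤ 1 := by exact_mod_cast eps_le_one n

lemma summable_nu : Summable fun y => (nu y).toReal :=
  ENNReal.summable_toReal (by rw [nu.tsum_coe]; exact ENNReal.one_ne_top)

lemma tsum_nu : ∑' y, (nu y).toReal = 1 := by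
  rw [← ENNReal.tsum_toReal_eq fun y => PMF.apply_ne_top _ _, nu.tsum_coe, ENNReal.toReal_one]

lemma summable_nu_mul {z : ℕ × ℕ → ℝ} {C : ℝ} (hz : ∀ x, |z x| ≤ C) :
    Summable fun y => (nu y).toReal * z y := by
  refine Summable.of_norm_bounded (summable_nu.mul_right C) fun y => ?_
  rw [Real.norm_eq_abs, abs_mul, abs_of_nonneg ENNReal.toReal_nonneg]
  exact mul_le_mul_of_nonneg_left (hz y) ENNReal.toReal_nonneg

lemma abs_tsum_nu_le {z : ℕ × ℕ → ℝ} {C : ℝ} (hz : ∀ x, |z x| ≤ C) :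
    |∑' y, (nu y).toReal * z y| ≤ C := by
  have h1 : ∀ y, ‖(nu y).toReal * z y‖ ≤ (nu y).toReal * C := by
    intro y
    rw [Real.norm_eq_abs, abs_mul, abs_of_nonneg ENNReal.toReal_nonneg]
    exact mul_le_mul_of_nonneg_left (hz y) ENNReal.toReal_nonneg
  have h2 := tsum_of_norm_bounded (summable_nu.mul_right C).hasSum h1
  rw [tsum_mul_right, tsum_nu, one_mul] at h2
  exact h2

lemma tsum_nu_nonneg {z : ℕ × ℕ → ℝ} (hz : ∀ x, 0 ≤ z x) :
    0 ≤ ∑' y, (nu y).toReal * z y :=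
  tsum_nonneg fun y => mul_nonneg ENNReal.toReal_nonneg (hz y)

lemma opT_mem {z : ℕ × ℕ → ℝ} (hz : ∀ x, 0 ≤ z x ∧ z x ≤ 1) (x : ℕ × ℕ) :
    0 ≤ opT z x ∧ opT z x ≤ 1 := by
  have h0 : (0 : ℝ) ≤ eps x.2 := NNReal.coe_nonneg _
  have h1 := eps_real_le_one x.2
  have h2 := tsum_nu_nonneg fun x => (hz x).1
  have h3 := abs_tsum_nu_le (z := z) (C := 1) fun x => by
    rw [abs_of_nonneg (hz x).1]; exact (hz x).2
  rw [abs_of_nonneg h2] at h3
  have h4 : 0 ≤ z (x.1, x.2 + 1) ^ 2 := sq_nonneg _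
  have h5 : z (x.1, x.2 + 1) ^ 2 ≤ 1 := pow_le_one₀ (hz _).1 (hz _).2
  unfold opT
  constructor
  · have := mul_nonneg h0 h2
    have := mul_nonneg (sub_nonneg.2 h1) h4
    linarith
  · have := mul_le_mul_of_nonneg_left h3 h0
    have := mul_le_mul_of_nonneg_left h5 (sub_nonneg.2 h1)
    linarith

lemma start_mem {t : ℝ} (ht : 0 < t) (x : ℕ × ℕ) : 0 ≤ start t x ∧ start t x ≤ 1 := by
  unfold start
  split_ifs
  · refine ⟨(Real.exp_pos _).le, Real.exp_le_one_iff.2 ?_⟩
    have : 0 ≤ t * (1 / 2 : ℝ) ^ x.2 := by positivity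
    linarith
  · exact ⟨zero_le_one, le_rfl⟩

lemma iter_mem {t : ℝ} (ht : 0 < t) (N : ℕ) (x : ℕ × ℕ) : 0 ≤ iter t N x ∧ iter t N x ≤ 1 := by
  induction N generalizing x with
  | zero => exact start_mem ht x
  | succ N ih => exact opT_mem ih x

lemma start_sq (t : ℝ) (x : ℕ × ℕ) : start t (x.1, x.2 + 1) ^ 2 = start t x := by
  unfold start
  simp only
  split_ifs
  · rw [← Real.exp_nat_mul]
    congr 1
    push_cast
    rw [pow_succ]
    ring
  · norm_num

lemma dist_opT_le {z z' : ℕ × ℕ → ℝ} (hz : ∀ x, 0 ≤ z x ∧ z x ≤ 1)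
    (hz' : ∀ x, 0 ≤ z' x ∧ z' x ≤ 1) {C : ℝ} (hC : ∀ x : ℕ × ℕ, |z x - z' x| ≤ C * (1 / 8) ^ x.2)
    (x : ℕ × ℕ) : |opT z x - opT z' x| ≤ 3 / 8 * C * (1 / 8) ^ x.2 := by
  have hC0 : 0 ≤ C := by
    have := (abs_nonneg _).trans (hC (0, 0))
    simpa using this
  have h1 : ∀ x : ℕ × ℕ, |z x - z' x| ≤ C := fun x => (hC x).trans <| by
    have : (1 / 8 : ℝ) ^ x.2 ≤ 1 := pow_le_one₀ (by norm_num) (by norm_num)
    nlinarith
  have hs : Summable fun y => (nu y).toReal * z y := summable_nu_mul (C := 1) fun x => by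
    rw [abs_of_nonneg (hz x).1]; exact (hz x).2
  have hs' : Summable fun y => (nu y).toReal * z' y := summable_nu_mul (C := 1) fun x => by
    rw [abs_of_nonneg (hz' x).1]; exact (hz' x).2
  have h2 : |∑' y, (nu y).toReal * z y - ∑' y, (nu y).toReal * z' y| ≤ C := by
    rw [← hs.tsum_sub hs']
    have := abs_tsum_nu_le (z := fun x => z x - z' x) h1
    simpa [mul_sub] using this
  have h0 : (0 : ℝ) ≤ eps x.2 := NNReal.coe_nonneg _
  have h3 := eps_real_le_one x.2
  have h4 := hC (x.1, x.2 + 1)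
  simp only at h4
  have h5 : |z (x.1, x.2 + 1) ^ 2 - z' (x.1, x.2 + 1) ^ 2| ≤ 2 * (C * (1 / 8) ^ (x.2 + 1)) := by
    rw [sq_sub_sq, abs_mul]
    have h6 : |z (x.1, x.2 + 1) + z' (x.1, x.2 + 1)| ≤ 2 := by
      rw [abs_of_nonneg (add_nonneg (hz _).1 (hz' _).1)]
      linarith [(hz (x.1, x.2 + 1)).2, (hz' (x.1, x.2 + 1)).2]
    exact mul_le_mul h6 h4 (abs_nonneg _) (by norm_num)
  have h6 : opT z x - opT z' x =
      (eps x.2 : ℝ) * (∑' y, (nu y).toReal * z y - ∑' y, (nu y).toReal * z' y) +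
        (1 - (eps x.2 : ℝ)) * (z (x.1, x.2 + 1) ^ 2 - z' (x.1, x.2 + 1) ^ 2) := by
    unfold opT; ring
  rw [h6]
  refine (abs_add_le _ _).trans ?_
  rw [abs_mul, abs_mul, abs_of_nonneg h0, abs_of_nonneg (sub_nonneg.2 h3)]
  have h7 : (eps x.2 : ℝ) * |∑' y, (nu y).toReal * z y - ∑' y, (nu y).toReal * z' y| ≤
      (1 / 8) ^ (x.2 + 1) * C := by
    rw [eps_real]
    exact mul_le_mul_of_nonneg_left h2 (by positivity)
  have h8 : (1 - (eps x.2 : ℝ)) * |z (x.1, x.2 + 1) ^ 2 - z' (x.1, x.2 + 1) ^ 2| ≤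
      2 * (C * (1 / 8) ^ (x.2 + 1)) := by
    refine le_trans ?_ h5
    have := abs_nonneg (z (x.1, x.2 + 1) ^ 2 - z' (x.1, x.2 + 1) ^ 2)
    nlinarith
  calc _ ≤ (1 / 8 : ℝ) ^ (x.2 + 1) * C + 2 * (C * (1 / 8) ^ (x.2 + 1)) := add_le_add h7 h8
    _ = 3 / 8 * C * (1 / 8) ^ x.2 := by rw [pow_succ]; ring

lemma dist_iter_le {t : ℝ} (ht : 0 < t) (N : ℕ) (x : ℕ × ℕ) :
    |iter t N x - iter t (N + 1) x| ≤ (1 / 8 * (3 / 8) ^ N) * (1 / 8) ^ x.2 := by
  induction N generalizing x with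
  | zero =>
    have h1 : iter t 0 x - iter t 1 x =
        (eps x.2 : ℝ) * (start t x - ∑' y, (nu y).toReal * start t y) := by
      simp only [iter, opT]
      rw [start_sq]
      ring
    rw [h1, abs_mul, abs_of_nonneg (NNReal.coe_nonneg _), eps_real]
    have h2 := tsum_nu_nonneg fun x => (start_mem ht x).1
    have h3 := abs_tsum_nu_le (z := start t) (C := 1) fun x => by
      rw [abs_of_nonneg (start_mem ht x).1]; exact (start_mem ht x).2
    rw [abs_of_nonneg h2] at h3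
    have h4 : |start t x - ∑' y, (nu y).toReal * start t y| ≤ 1 := by
      rw [abs_le]
      constructor <;> linarith [(start_mem ht x).1, (start_mem ht x).2]
    calc (1 / 8 : ℝ) ^ (x.2 + 1) * |start t x - ∑' y, (nu y).toReal * start t y|
        ≤ (1 / 8 : ℝ) ^ (x.2 + 1) * 1 := mul_le_mul_of_nonneg_left h4 (by positivity)
      _ = 1 / 8 * (3 / 8) ^ 0 * (1 / 8) ^ x.2 := by rw [pow_succ]; ring
  | succ N ih =>
    have := dist_opT_le (iter_mem ht N) (iter_mem ht (N + 1)) ih x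
    simp only [iter] at this ⊢
    refine this.trans (le_of_eq ?_)
    rw [pow_succ]
    ring

lemma exists_fixed {t : ℝ} (ht : 0 < t) : ∃ z : ℕ × ℕ → ℝ,
    z ∈ fixedPoints exMu ∧ ∀ x : ℕ × ℕ, |start t x - z x| ≤ 1 / 5 * (1 / 8) ^ x.2 := by
  have h1 : ∀ x : ℕ × ℕ, ∀ N, dist (iter t N x) (iter t (N + 1) x) ≤
      (1 / 8 * (1 / 8) ^ x.2) * (3 / 8) ^ N := by
    intro x N
    rw [Real.dist_eq]
    exact (dist_iter_le ht N x).trans (le_of_eq (by ring))
  have h2 : ∀ x : ℕ × ℕ, ∃ a, Tendsto (fun N => iter t N x) atTop (𝓝 a) := fun x =>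
    cauchySeq_tendsto_of_complete (cauchySeq_of_le_geometric _ _ (by norm_num) (h1 x))
  choose z hz using h2
  have hz01 : ∀ x, 0 ≤ z x ∧ z x ≤ 1 := fun x =>
    ⟨ge_of_tendsto' (hz x) fun N => (iter_mem ht N x).1,
      le_of_tendsto' (hz x) fun N => (iter_mem ht N x).2⟩
  refine ⟨z, ⟨hz01, fun x => ?_⟩, fun x => ?_⟩
  · rw [genFun_exMu z hz01 x]
    have h3 : Tendsto (fun N => iter t (N + 1) x) atTop (𝓝 (z x)) :=
      (hz x).comp (tendsto_add_atTop_nat 1)
    have h4 : Tendsto (fun N => iter t (N + 1) x) atTop (𝓝 ((eps x.2 : ℝ) *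
        ∑' y, (nu y).toReal * z y + (1 - (eps x.2 : ℝ)) * z (x.1, x.2 + 1) ^ 2)) := by
      simp only [iter, opT]
      refine Tendsto.add (Tendsto.const_mul _ ?_) (Tendsto.const_mul _ ((hz _).pow 2))
      refine tendsto_tsum_of_dominated_convergence summable_nu
        (fun y => (hz y).const_mul _) (Eventually.of_forall fun N y => ?_)
      rw [Real.norm_eq_abs, abs_mul, abs_of_nonneg ENNReal.toReal_nonneg,
        abs_of_nonneg (iter_mem ht N y).1]
      exact mul_le_of_le_one_right ENNReal.toReal_nonneg (iter_mem ht N y).2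
    exact tendsto_nhds_unique h4 h3
  · have := dist_le_of_le_geometric_of_tendsto₀ _ _ (by norm_num) (h1 x) (hz x)
    rw [Real.dist_eq] at this
    simp only [iter] at this
    refine this.trans (le_of_eq (by ring))

/-- The fixed point of parameter `t = exp s`. -/
noncomputable def fp (s : ℝ) : ℕ × ℕ → ℝ := (exists_fixed (Real.exp_pos s)).choose

lemma fp_mem (s : ℝ) : fp s ∈ fixedPoints exMu := (exists_fixed (Real.exp_pos s)).choose_spec.1

lemma fp_dist (s : ℝ) (x : ℕ × ℕ) : |start (Real.exp s) x - fp s x| ≤ 1 / 5 * (1 / 8) ^ x.2 :=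
  (exists_fixed (Real.exp_pos s)).choose_spec.2 x

lemma tendsto_start (t : ℝ) :
    Tendsto (fun n : ℕ => 2 ^ n * (1 - start t (0, n))) atTop (𝓝 t) := by
  have h1 : HasDerivAt (fun h : ℝ => 1 - Real.exp (-(t * h))) t 0 := by
    have h2 : HasDerivAt (fun h : ℝ => -(t * h)) (-t) 0 := by
      simpa using ((hasDerivAt_id' (0 : ℝ)).const_mul t).fun_neg
    have h3 := (h2.exp).const_sub 1
    simpa using h3
  have h2 := hasDerivAt_iff_tendsto_slope_zero.1 h1
  have h3 : Tendsto (fun n : ℕ => (1 / 2 : ℝ) ^ n) atTop (𝓝[≠] 0) := by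
    refine tendsto_nhdsWithin_iff.2
      ⟨tendsto_pow_atTop_nhds_zero_of_lt_one (by norm_num) (by norm_num),
        Eventually.of_forall fun n => ?_⟩
    have : (0 : ℝ) < (1 / 2) ^ n := by positivity
    exact this.ne'
  refine (h2.comp h3).congr fun n => ?_
  simp [start]

lemma tendsto_fp (s : ℝ) :
    Tendsto (fun n : ℕ => 2 ^ n * (1 - fp s (0, n))) atTop (𝓝 (Real.exp s)) := by
  have h1 : Tendsto (fun n : ℕ => (2 : ℝ) ^ n * (start (Real.exp s) (0, n) - fp s (0, n))) atTop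
      (𝓝 0) := by
    refine squeeze_zero_norm (a := fun n : ℕ => (1 / 4 : ℝ) ^ n) (fun n => ?_)
      (tendsto_pow_atTop_nhds_zero_of_lt_one (by norm_num) (by norm_num))
    rw [Real.norm_eq_abs, abs_mul, abs_of_pos (by positivity)]
    calc (2 : ℝ) ^ n * |start (Real.exp s) (0, n) - fp s (0, n)|
        ≤ 2 ^ n * (1 / 5 * (1 / 8) ^ n) := mul_le_mul_of_nonneg_left (fp_dist s (0, n))
          (by positivity)
      _ = 1 / 5 * (1 / 4) ^ n := by
          rw [show (1 / 4 : ℝ) = 2 * (1 / 8) by norm_num, mul_pow]; ring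
      _ ≤ (1 / 4) ^ n := by
          have : (0 : ℝ) < (1 / 4) ^ n := by positivity
          linarith
  have h2 := (tendsto_start (Real.exp s)).add h1
  rw [add_zero] at h2
  refine h2.congr fun n => ?_
  ring

lemma fp_injective : Function.Injective fp := by
  intro s s' h
  have h1 := tendsto_fp s
  rw [h] at h1
  exact Real.exp_injective (tendsto_nhds_unique h1 (tendsto_fp s'))

lemma fp_not_mem (s : ℝ) : fp s ∉ extinctionVecs exMu := by
  rintro ⟨A, hA⟩
  have h1 := tendsto_fp s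
  by_cases h : ∃ᶠ m in atTop, ((0, m) : ℕ × ℕ) ∈ A
  · have h2 : ∀ n : ℕ, (2 : ℝ) ^ n * (1 / 2) ≤ 2 ^ n * (1 - fp s (0, n)) := by
      intro n
      have h3 := extinctionVec_le h n
      rw [← hA] at h3
      have h4 : (1 / 8 : ℝ) ^ n ≤ 1 := pow_le_one₀ (by norm_num) (by norm_num)
      exact mul_le_mul_of_nonneg_left (by linarith) (by positivity)
    have h3 : Tendsto (fun n : ℕ => (2 : ℝ) ^ n * (1 / 2)) atTop atTop :=
      (tendsto_pow_atTop_atTop_of_one_lt (by norm_num)).atTop_mul_const (by norm_num)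
    exact not_tendsto_nhds_of_tendsto_atTop (tendsto_atTop_mono h2 h3) _ h1
  · have h2 : ∀ n : ℕ, 2 ^ n * (1 - fp s (0, n)) ≤ (1 / 4 : ℝ) ^ n := by
      intro n
      have h3 := le_extinctionVec h n
      rw [← hA] at h3
      have h4 : 1 - fp s (0, n) ≤ (1 / 8) ^ n := by
        have : (0 : ℝ) < (1 / 8) ^ n := by positivity
        linarith
      calc 2 ^ n * (1 - fp s (0, n)) ≤ 2 ^ n * (1 / 8 : ℝ) ^ n :=
            mul_le_mul_of_nonneg_left h4 (by positivity)
        _ = (1 / 4 : ℝ) ^ n := by rw [← mul_pow]; norm_num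
    have h3 : Real.exp s ≤ 0 := le_of_tendsto_of_tendsto' h1
      (tendsto_pow_atTop_nhds_zero_of_lt_one (by norm_num) (by norm_num)) h2
    exact absurd h3 (not_le.2 (Real.exp_pos s))

lemma not_countable_diff : ¬ (fixedPoints exMu \ extinctionVecs exMu).Countable := by
  intro hc
  have h1 : (Set.range fp).Countable :=
    hc.mono (by rintro _ ⟨s, rfl⟩; exact ⟨fp_mem s, fp_not_mem s⟩)
  have h2 : Countable ℝ := by
    have := h1.to_subtype
    exact Function.Injective.countable (f := fun s : ℝ => (⟨fp s, s, rfl⟩ : Set.range fp))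
      fun a b h => fp_injective (congrArg Subtype.val h)
  exact not_countable h2

/-- There is an irreducible branching random walk (on a countable set) for which the set `E_G` of
extinction probability vectors and the set `F_G \ E_G` of the other fixed points of the
generating function are both uncountable. -/
theorem result : ∃ (X : Type) (_ : Nonempty X) (_ : Countable X) (μ : X → PMF (X →₀ ℕ)),
    IsIrreducible μ ∧ ¬ (extinctionVecs μ).Countable ∧
      ¬ (fixedPoints μ \ extinctionVecs μ).Countable :=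
  ⟨ℕ × ℕ, inferInstance, inferInstance, exMu, irreducible_exMu, not_countable_extinctionVecs,
    not_countable_diff⟩

end Pool.Agent.Results.MP_46e535_pr.Main
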